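import Pool.Agent.H66.S2.Basic

/-!
# The twists of elements of `Irr` are cuspidal and distinct
-/

namespace Pool.H66.S2

open Filter Topology

theorem APT_dual_dual (hIND : S_IND) (hBAS : S_BAS) (A : Aut) (σ : A.Cusp) :
    A.dual (A.dual σ) = σ := by
  have h := (hIND A).1 {A.dual (A.dual σ)} {σ} (by
    intro v n _
    rw [eigs_singleton, eigs_singleton]
    have hd := (hBAS A).2.2.2.2.1
    rw [hd, hd, Multiset.map_map]
    simp)
  exact Multiset.singleton_inj.1 h

theorem APT_uniq (hIND : S_IND) (A : Aut) (P Q : Multiset A.Cusp)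
    (h : ∀ p, (A.eigs P p).sum = (A.eigs Q p).sum) : P = Q :=
  (hIND A).1 P Q fun _ _ _ => h _

open Classical in
theorem s_APT (hRSP : S_RSP) (hREC : S_REC) (hRMU : S_RMU) (hRTA : S_RTA) (hTEN : S_TEN)
    (hIND : S_IND) (hEXP : S_EXP) (hBAS : S_BAS) : S_APT := by
  intro A hSE F
  have hR : ∀ q : A.Cusp × A.Cusp, ∃ R : Multiset A.Cusp,
      ∀ p, (A.eigs R p).sum = A.tr q.1 p * A.tr (A.dual q.2) p := by
    intro q
    obtain ⟨R, hR⟩ := hTEN A hSE {q.1} {A.dual q.2}
    refine ⟨R, fun p => ?_⟩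
    rw [hR, eigs_singleton, eigs_singleton]
    rfl
  choose R hR using hR
  set E : Finset A.Cusp := ((F ×ˢ F).biUnion fun q => (R q).toFinset.image fun η =>
    A.dual (A.mul (A.nrm (-A.expo η)) η)).erase A.one with hE
  refine ⟨E, Finset.notMem_erase _ _, ?_⟩
  intro τ m d H hm hdeg hTmp hApt
  have hRT := hRTA A τ m hm hdeg
  have hRM := hRMU A τ m hSE hm hdeg
  obtain ⟨hexp1, hexpd, hexpm, -⟩ := hEXP A
  obtain ⟨hcard, -, -, hone, hdual, -⟩ := hBAS A
  refine hRSP A F hSE A.Cusp (A.Irr τ m d H) (fun z => z) (fun z hz => (hTmp d H z hz).1) ?_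
  intro z hz z' hz'
  have hz'd := hRT.2.2.1 d H z' hz'
  obtain ⟨T, hT⟩ := hTEN A hSE {A.dual z'} {z}
  have hT' : ∀ p, (A.eigs T p).sum = A.tr z p * A.tr (A.dual z') p := by
    intro p
    rw [hT, eigs_singleton, eigs_singleton, mul_comm]
    rfl
  have hTI : ∀ ρ ∈ T, ρ ∈ A.Irr τ m 0 (2 * H) := by
    intro ρ hρ
    have := hRM.1 d (-d) H H z hz (A.dual z') hz'd T hT' ρ hρ
    rwa [add_neg_cancel, ← two_mul] at this
  have hcnt : T.count A.one = if z = z' then 1 else 0 := by
    have hrec := hREC A {A.dual z'} {z} {A.one} T {z'} (by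
      intro x hx
      simp only [Multiset.mem_add, Multiset.mem_singleton] at hx
      rcases hx with (((rfl | rfl) | rfl) | hx) | rfl
      · exact hTmp _ _ _ hz'd
      · exact hTmp _ _ _ hz
      · exact hTmp _ _ _ hRT.1
      · exact hTmp _ _ _ (hTI x hx)
      · exact hTmp _ _ _ hz') hT (by
      intro p
      rw [Multiset.map_singleton, APT_dual_dual hIND hBAS, eigs_singleton, eigs_singleton, hone]
      simp)
    rw [finsum_eq_single _ A.one (by
      intro x hx
      have : Multiset.count x {A.one} = 0 := Multiset.count_eq_zero.2 (by simpa using hx)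
      rw [this, mul_zero])] at hrec
    rw [finsum_eq_single (fun x => Multiset.count x {z'} * Multiset.count x {z}) z (by
      intro x hx
      have : Multiset.count x {z} = 0 := Multiset.count_eq_zero.2 (by simpa using hx)
      rw [this, mul_zero])] at hrec
    rw [Multiset.count_singleton_self, mul_one, Multiset.count_singleton_self, mul_one] at hrec
    rw [hrec, Multiset.count_singleton]
  refine ⟨T, hT', fun h => by rw [hcnt, if_pos h], fun h => by rw [hcnt, if_neg h], ?_⟩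
  intro ρ hρ hρ1 σ hσ σ' hσ' R' hR' η hη y hcon
  have hρI := hTI ρ hρ
  have hy : y = -A.expo η := by
    have h1 := congrArg A.expo hcon
    rw [hexpd, hexpm, (hTmp _ _ _ hρI).1] at h1
    linarith
  have hR'' : R' = R (σ, σ') := APT_uniq hIND A _ _ fun p => by rw [hR', hR]
  have hρE : ρ ∈ E := by
    rw [hE, Finset.mem_erase]
    refine ⟨hρ1, Finset.mem_biUnion.2 ⟨(σ, σ'), Finset.mem_product.2 ⟨hσ, hσ'⟩,
      Finset.mem_image.2 ⟨η, Multiset.mem_toFinset.2 (hR'' ▸ hη), ?_⟩⟩⟩
    rw [← hy, ← hcon, APT_dual_dual hIND hBAS]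
  obtain ⟨p, ⟨e, he, he1⟩, hap⟩ := hApt ρ hρE
  obtain ⟨c, hc⟩ := exists_ord A.toAData (τ := τ) (p := p) (m := m) (by rw [hcard, hdeg])
  obtain ⟨a, ha, hea⟩ := hρI.2 p c hc e he
  by_cases ha0 : a = 0
  · rw [ha0, mon_zero] at hea
    exact he1 hea
  · exact hap c hc a ha0 ha.1 ha.2 e he hea.symm

end Pool.H66.S2
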