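import Pool.Agent.H66.S2.Basic

/-!
# Descent for symmetric powers (module DNS)

If the symmetric power of degree `k + 1` is functorial, so is the one of degree `k`.
-/

namespace Pool.H66.S2

open Filter Topology

/-- Multisets of nonzero complex numbers with the same power sums are equal. -/
theorem DNS_powsum (hVAN : S_VAN) (X Y : Multiset ℂ) (hX : (0 : ℂ) ∉ X) (hY : (0 : ℂ) ∉ Y)
    (h : ∀ n : ℕ, 1 ≤ n → (X.map fun a => a ^ n).sum = (Y.map fun a => a ^ n).sum) : X = Y := by
  classical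
  set s : Finset ℂ := X.toFinset ∪ Y.toFinset with hs
  set φ : ℂ →₀ ℂ := Finsupp.onFinset s (fun e => (X.count e : ℂ) - (Y.count e : ℂ)) (by
    intro e he
    rw [hs, Finset.mem_union, Multiset.mem_toFinset, Multiset.mem_toFinset]
    by_contra hcon
    push Not at hcon
    apply he
    rw [Multiset.count_eq_zero_of_notMem hcon.1, Multiset.count_eq_zero_of_notMem hcon.2]
    simp) with hφ
  have hφe : ∀ e, φ e = (X.count e : ℂ) - (Y.count e : ℂ) := fun e => rfl
  have hsum : ∀ Z : Multiset ℂ, Z.toFinset ⊆ s → ∀ n : ℕ,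
      (Z.map fun a => a ^ n).sum = ∑ e ∈ s, (Z.count e : ℂ) * e ^ n := by
    intro Z hZ n
    rw [Finset.sum_multiset_map_count]
    simp only [nsmul_eq_mul]
    refine Finset.sum_subset hZ fun e _ he => ?_
    rw [Multiset.count_eq_zero_of_notMem (fun h => he (Multiset.mem_toFinset.2 h))]
    simp
  have h0 : φ = 0 := by
    refine hVAN φ ?_ ?_
    · intro e he h0
      subst h0
      have := Finsupp.mem_support_iff.1 he
      rw [hφe, Multiset.count_eq_zero_of_notMem hX, Multiset.count_eq_zero_of_notMem hY] at this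
      simp at this
    · intro n hn
      have h1 : φ.sum (fun e k => k * e ^ n) = ∑ e ∈ s, φ e * e ^ n := by
        refine Finsupp.sum_of_support_subset _ (Finsupp.support_onFinset_subset) _ ?_
        intro i _
        simp
      rw [h1]
      simp only [hφe, sub_mul, Finset.sum_sub_distrib]
      rw [← hsum X Finset.subset_union_left n, ← hsum Y Finset.subset_union_right n, h n hn,
        sub_self]
  ext e
  have h1 : φ e = 0 := by rw [h0]; rfl
  rw [hφe, sub_eq_zero] at h1
  exact_mod_cast h1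

/-- The exponent of a complex number with respect to the absolute value of a Frobenius
element. -/
noncomputable def DNS_lg (A : AData) (v : A.Pl) (a : ℂ) : ℝ :=
  Real.logb (A.ab v (A.Fr v)) ‖a‖

theorem DNS_lg_mul (A : AData) (v : A.Pl) {a b : ℂ} (ha : a ≠ 0) (hb : b ≠ 0) :
    DNS_lg A v (a * b) = DNS_lg A v a + DNS_lg A v b := by
  unfold DNS_lg
  rw [norm_mul, Real.logb_mul (norm_ne_zero_iff.2 ha) (norm_ne_zero_iff.2 hb)]

theorem DNS_lg_bound (A : Aut) (hBAS : S_BAS) (σ : A.Cusp) (v : A.Pl) {a : ℂ}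
    (ha : a ∈ A.eig σ (A.frob v)) :
    A.expo σ - 1 / 2 < DNS_lg A.toAData v a ∧ DNS_lg A.toAData v a < A.expo σ + 1 / 2 := by
  obtain ⟨-, h0, -, -, -, -, -, -, -, -, -, h⟩ := hBAS A
  obtain ⟨h1, h2⟩ := h σ v a ha
  have hb0 := A.ab_pos v (A.Fr v)
  have hb1 := A.Fr_lt v
  have hane : a ≠ 0 := fun h => h0 σ (A.frob v) (h ▸ ha)
  have hapos : 0 < ‖a‖ := norm_pos_iff.2 hane
  constructor
  · have h3 := Real.logb_lt_logb_of_base_lt_one hb0 hb1 hapos h2
    rwa [Real.logb_rpow hb0 hb1.ne] at h3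
  · have h3 := Real.logb_lt_logb_of_base_lt_one hb0 hb1 (Real.rpow_pos_of_pos hb0 _) h1
    rwa [Real.logb_rpow hb0 hb1.ne] at h3

/-- A bound for the exponents. -/
theorem DNS_expo_bound (A : Aut) (P : Multiset A.Cusp) :
    ∃ E : ℝ, 0 ≤ E ∧ ∀ σ ∈ P, |A.expo σ| ≤ E := by
  induction P using Multiset.induction_on with
  | empty => exact ⟨0, le_refl _, by simp⟩
  | cons σ P ih =>
    obtain ⟨E, hE0, hE⟩ := ih
    refine ⟨max E |A.expo σ|, le_max_of_le_left hE0, ?_⟩
    intro w hw
    rcases Multiset.mem_cons.1 hw with rfl | h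
    · exact le_max_right _ _
    · exact (hE w h).trans (le_max_left _ _)

/-- The twist of an isobaric representation by a power of the absolute value. -/
noncomputable def DNS_tw (A : Aut) (S : ℝ) (P : Multiset A.Cusp) : Multiset A.Cusp :=
  P.map (A.mul (A.nrm S))

theorem DNS_tr_nrm (A : Aut) (hBAS : S_BAS) (S : ℝ) (p : A.Pt) :
    A.tr (A.nrm S) p = ((A.ab p.v p.g ^ S : ℝ) : ℂ) := by
  obtain ⟨-, -, -, -, -, -, -, h, -⟩ := hBAS A
  unfold AData.tr
  rw [h, Multiset.sum_singleton]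

theorem DNS_eigs_tw (A : Aut) (hBAS : S_BAS) (S : ℝ) (P : Multiset A.Cusp) (p : A.Pt) :
    A.eigs (DNS_tw A S P) p = (A.eigs P p).map fun a => ((A.ab p.v p.g ^ S : ℝ) : ℂ) * a := by
  have hB := hBAS A
  obtain ⟨-, -, -, -, -, h, -⟩ := hB
  induction P using Multiset.induction_on with
  | empty => simp [DNS_tw, eigs_zero]
  | cons σ P ih =>
    have h1 : DNS_tw A S (σ ::ₘ P) = A.mul (A.nrm S) σ ::ₘ DNS_tw A S P := by
      simp [DNS_tw]
    rw [h1, eigs_cons, eigs_cons, ih, Multiset.map_add, h _ _ _ (A.deg_nrm S),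
      DNS_tr_nrm A hBAS]

theorem DNS_sum_tw (A : Aut) (hBAS : S_BAS) (S : ℝ) (P : Multiset A.Cusp) (p : A.Pt) :
    (A.eigs (DNS_tw A S P) p).sum = ((A.ab p.v p.g ^ S : ℝ) : ℂ) * (A.eigs P p).sum := by
  rw [DNS_eigs_tw A hBAS, Multiset.sum_map_mul_left, Multiset.map_id']

theorem DNS_ne (A : Aut) (hBAS : S_BAS) (P : Multiset A.Cusp) (p : A.Pt) :
    (0 : ℂ) ∉ A.eigs P p := by
  obtain ⟨-, h0, -⟩ := hBAS A
  rw [mem_eigs]
  rintro ⟨σ, _, h⟩
  exact h0 σ p h

theorem DNS_pow (A : Aut) (hBAS : S_BAS) (P : Multiset A.Cusp) (p : A.Pt) (k : ℤ) :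
    A.eigs P (p.pow k) = (A.eigs P p).map fun a => a ^ k := by
  obtain ⟨-, -, h, -⟩ := hBAS A
  induction P using Multiset.induction_on with
  | empty => simp [eigs_zero]
  | cons σ P ih => rw [eigs_cons, eigs_cons, ih, h, Multiset.map_add]

theorem DNS_filter_eigs (A : Aut) (P : Multiset A.Cusp) (p : A.Pt) (r : A.Cusp → Prop)
    [DecidablePred r] (s : ℂ → Prop) [DecidablePred s]
    (h : ∀ w ∈ P, ∀ a ∈ A.eig w p, (s a ↔ r w)) :
    (A.eigs P p).filter s = A.eigs (P.filter r) p := by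
  induction P using Multiset.induction_on with
  | empty => simp [eigs_zero]
  | cons σ P ih =>
    rw [eigs_cons, Multiset.filter_add, ih fun w hw => h w (Multiset.mem_cons_of_mem hw)]
    by_cases hr : r σ
    · rw [Multiset.filter_cons_of_pos _ hr, eigs_cons]
      congr 1
      rw [Multiset.filter_eq_self]
      exact fun a ha => (h σ (Multiset.mem_cons_self _ _) a ha).2 hr
    · rw [Multiset.filter_cons_of_neg _ hr]
      have : (A.eig σ p).filter s = 0 := by
        rw [Multiset.filter_eq_nil]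
        exact fun a ha hs => hr ((h σ (Multiset.mem_cons_self _ _) a ha).1 hs)
      rw [this, zero_add]

/-! ## Algebra -/

theorem DNS_hs_rep (hHSB : S_HSB) (x : ℂ) : ∀ n j : ℕ,
    hs n (Multiset.replicate j x) = (Nat.multichoose j n : ℂ) * x ^ n := by
  obtain ⟨h0, h1, -, h2, -⟩ := hHSB
  intro n
  induction n with
  | zero =>
    intro j
    rw [h0]
    simp
  | succ n ih =>
    intro j
    induction j with
    | zero => rw [Multiset.replicate_zero, h1]; simp
    | succ j ihj =>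
      rw [Multiset.replicate_succ, h2, ihj, ← Multiset.replicate_succ, ih,
        Nat.multichoose_succ_succ]
      push_cast
      ring

theorem DNS_hs_add (hHSB : S_HSB) (K j : ℕ) (X : Multiset ℂ) (x : ℂ) :
    hs K (X + Multiset.replicate j x) =
      ∑ i ∈ Finset.range (K + 1), (Nat.multichoose j (K - i) : ℂ) * (x ^ (K - i) * hs i X) := by
  rw [hHSB.2.2.2.2]
  refine Finset.sum_congr rfl fun i _ => ?_
  rw [DNS_hs_rep hHSB]
  ring

theorem DNS_lin (K : ℕ) : ∀ (N : ℕ) (c : ℕ → ℂ),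
    (∀ j, N ≤ j → ∑ n ∈ Finset.range (K + 1), (Nat.multichoose j n : ℂ) * c n = 0) →
    ∀ n, n ≤ K → c n = 0 := by
  induction K with
  | zero =>
    intro N c h n hn
    have := h N le_rfl
    obtain rfl : n = 0 := by omega
    simpa using this
  | succ K ih =>
    intro N c h
    have h1 : ∀ n, n ≤ K → c (n + 1) = 0 := by
      refine ih (N + 1) (fun n => c (n + 1)) fun j hj => ?_
      obtain ⟨i, rfl⟩ : ∃ i, j = i + 1 := ⟨j - 1, by omega⟩
      have e1 := h (i + 1) (by omega)
      have e2 := h i (by omega)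
      rw [Finset.sum_range_succ'] at e1 e2
      have e3 : ∑ n ∈ Finset.range (K + 1), (Nat.multichoose (i + 1) (n + 1) : ℂ) * c (n + 1) =
          (∑ n ∈ Finset.range (K + 1), (Nat.multichoose i (n + 1) : ℂ) * c (n + 1)) +
            ∑ n ∈ Finset.range (K + 1), (Nat.multichoose (i + 1) n : ℂ) * c (n + 1) := by
        rw [← Finset.sum_add_distrib]
        refine Finset.sum_congr rfl fun n _ => ?_
        rw [Nat.multichoose_succ_succ]
        push_cast
        ring
      rw [e3] at e1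
      simp only [Nat.multichoose_zero_right, Nat.cast_one, one_mul] at e1 e2
      linear_combination e1 - e2
    intro n hn
    rcases n with _ | n
    · have e1 := h N le_rfl
      rw [Finset.sum_range_succ', Finset.sum_eq_zero fun n hn' => by
        rw [h1 n (by have := Finset.mem_range.1 hn'; omega), mul_zero]] at e1
      simpa using e1
    · exact h1 n (by omega)

theorem DNS_part {α : Type} (s : Finset ℕ) (r : ℕ → α → Prop) [∀ i, DecidablePred (r i)]
    (U : Multiset α) (h1 : ∀ w ∈ U, ∃ i ∈ s, r i w)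
    (h2 : ∀ w ∈ U, ∀ i ∈ s, ∀ j ∈ s, r i w → r j w → i = j) :
    U = ∑ i ∈ s, U.filter (r i) := by
  induction U using Multiset.induction_on with
  | empty => simp
  | cons w U ih =>
    have e1 := ih (fun x hx => h1 x (Multiset.mem_cons_of_mem hx))
      (fun x hx => h2 x (Multiset.mem_cons_of_mem hx))
    obtain ⟨i, hi, hr⟩ := h1 w (Multiset.mem_cons_self _ _)
    have e2 : ∀ j ∈ s, (w ::ₘ U).filter (r j) = (if j = i then {w} else 0) + U.filter (r j) := by
      intro j hj
      by_cases hji : j = i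
      · subst hji
        rw [Multiset.filter_cons_of_pos _ hr, if_pos rfl, Multiset.singleton_add]
      · rw [if_neg hji, zero_add, Multiset.filter_cons_of_neg]
        intro hrj
        exact hji (h2 w (Multiset.mem_cons_self _ _) j hj i hi hrj hr)
    rw [Finset.sum_congr rfl e2, Finset.sum_add_distrib, ← e1, Finset.sum_ite_eq' s i, if_pos hi,
      Multiset.singleton_add]

theorem DNS_lg_prod (A : AData) (v : A.Pl) (E : ℝ) (Z : Multiset ℂ)
    (hZ : ∀ z ∈ Z, z ≠ 0 ∧ |DNS_lg A v z| ≤ E) : Z.prod ≠ 0 ∧ |DNS_lg A v Z.prod| ≤ Z.card * E := by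
  induction Z using Multiset.induction_on with
  | empty => simp [DNS_lg]
  | cons a Z ih =>
    obtain ⟨h1, h2⟩ := ih fun z hz => hZ z (Multiset.mem_cons_of_mem hz)
    obtain ⟨h3, h4⟩ := hZ a (Multiset.mem_cons_self _ _)
    rw [Multiset.prod_cons, Multiset.card_cons]
    refine ⟨mul_ne_zero h3 h1, ?_⟩
    rw [DNS_lg_mul _ _ h3 h1]
    push_cast
    have := abs_add_le (DNS_lg A v a) (DNS_lg A v Z.prod)
    linarith

theorem DNS_lg_abs (A : Aut) (v : A.Pl) (S : ℝ) (n : ℕ) :
    (((A.ab v (A.Fr v) ^ S : ℝ) : ℂ)) ^ n ≠ 0 ∧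
      DNS_lg A.toAData v ((((A.ab v (A.Fr v) ^ S : ℝ) : ℂ)) ^ n) = n * S := by
  have hb0 := A.ab_pos v (A.Fr v)
  have hb1 := A.Fr_lt v
  have h1 : 0 < A.ab v (A.Fr v) ^ S := Real.rpow_pos_of_pos hb0 _
  refine ⟨pow_ne_zero _ (by exact_mod_cast h1.ne'), ?_⟩
  unfold DNS_lg
  rw [norm_pow, Complex.norm_real, Real.norm_of_nonneg h1.le, Real.logb_pow,
    Real.logb_rpow hb0 hb1.ne]

theorem DNS_filter_sum {α : Type} (s : Finset ℕ) (p : α → Prop) [DecidablePred p]
    (U : ℕ → Multiset α) (i : ℕ) (hi : i ∈ s) (h1 : ∀ a ∈ U i, p a)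
    (h2 : ∀ j ∈ s, j ≠ i → ∀ a ∈ U j, ¬ p a) : (∑ j ∈ s, U j).filter p = U i := by
  classical
  rw [← Finset.add_sum_erase s U hi, Multiset.filter_add, Multiset.filter_eq_self.2 h1,
    Multiset.filter_eq_nil.2, add_zero]
  intro a ha
  rw [Multiset.mem_sum] at ha
  obtain ⟨j, hj, ha⟩ := ha
  exact h2 j (Finset.mem_of_mem_erase hj) (Finset.ne_of_mem_erase hj) a ha

theorem DNS_map_sum (s : Finset ℕ) (U : ℕ → Multiset ℂ) (f : ℂ → ℂ) :
    (∑ i ∈ s, U i).map f = ∑ i ∈ s, (U i).map f := by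
  classical
  induction s using Finset.induction_on with
  | empty => simp
  | insert i s hi ih => rw [Finset.sum_insert hi, Finset.sum_insert hi, Multiset.map_add, ih]

theorem DNS_eigs_sum (A : AData) (s : Finset ℕ) (U : ℕ → Multiset A.Cusp) (p : A.Pt) :
    A.eigs (∑ i ∈ s, U i) p = ∑ i ∈ s, A.eigs (U i) p := by
  classical
  induction s using Finset.induction_on with
  | empty => simp [eigs_zero]
  | insert i s hi ih => rw [Finset.sum_insert hi, Finset.sum_insert hi, eigs_add, ih]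

theorem DNS_eigs_nsmul (A : AData) (n : ℕ) (U : Multiset A.Cusp) (p : A.Pt) :
    A.eigs (n • U) p = n • A.eigs U p := by
  induction n with
  | zero => simp [eigs_zero]
  | succ n ih => rw [succ_nsmul, succ_nsmul, eigs_add, ih]

theorem DNS_eigs_rep (A : AData) (n : ℕ) (σ : A.Cusp) (p : A.Pt) (x : ℂ)
    (h : A.eig σ p = {x}) : A.eigs (Multiset.replicate n σ) p = Multiset.replicate n x := by
  induction n with
  | zero => simp [eigs_zero]
  | succ n ih =>
    rw [Multiset.replicate_succ, eigs_cons, ih, h, Multiset.replicate_succ,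
      Multiset.singleton_add]

theorem s_DNS (hBAS : S_BAS) (hIND : S_IND) (hSYM : S_SYM) (hHSB : S_HSB) (hVAN : S_VAN) :
    S_DNS := by
  intro A k hA P
  classical
  obtain ⟨hI, -⟩ := hIND A
  obtain ⟨hcard, -, -, -, -, -, -, hnrm, -⟩ := hBAS A
  set K := k + 1 with hK
  obtain ⟨E₀, hE₀, hE⟩ := DNS_expo_bound A P
  set E : ℝ := E₀ + 1 / 2 with hEdef
  have hEpos : 0 < E := by rw [hEdef]; linarith
  set B : ℝ := K * E + 1 with hB
  have hBpos : 0 < B := by positivity
  set S : ℝ := 4 * B with hS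
  choose U hU using fun j : ℕ => hA (P + Multiset.replicate j (A.nrm S))
  set x : A.Pt → ℂ := fun p => ((A.ab p.v p.g ^ S : ℝ) : ℂ) with hx
  have hx0 : ∀ p, x p ≠ 0 := fun p => by
    have := Real.rpow_pos_of_pos (A.ab_pos p.v p.g) S
    simp only [hx]
    exact_mod_cast this.ne'
  -- the traces of `U j`
  have hUs : ∀ j p, (A.eigs (U j) p).sum = ∑ i ∈ Finset.range (K + 1),
      (Nat.multichoose j (K - i) : ℂ) * (x p ^ (K - i) * hs i (A.eigs P p)) := by
    intro j p
    rw [hU, eigs_add, DNS_eigs_rep A.toAData j _ p (x p) (hnrm S p), DNS_hs_add hHSB]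
  -- the eigenvalues of `P`
  have hX : ∀ v, ∀ a ∈ A.eigs P (A.frob v), |DNS_lg A.toAData v a| ≤ E := by
    intro v a ha
    obtain ⟨σ, hσ, ha⟩ := (mem_eigs A.toAData).1 ha
    have h1 := abs_le.1 (hE σ hσ)
    have h2 := DNS_lg_bound A hBAS σ v ha
    rw [abs_le]
    constructor <;> linarith [h1.1, h1.2, h2.1, h2.2]
  -- the symmetric powers at the Frobenius elements
  choose Y hYc hYs hYe using fun (v : A.Pl) (i : ℕ) =>
    hSYM i (A.eigs P (A.frob v)) (DNS_ne A hBAS P _)
  have hYlg : ∀ v i, i ≤ K → ∀ a ∈ Y v i, a ≠ 0 ∧ |DNS_lg A.toAData v a| ≤ K * E := by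
    intro v i hi a ha
    obtain ⟨Z, hZc, hZ, rfl⟩ := hYe v i a ha
    obtain ⟨h1, h2⟩ := DNS_lg_prod A.toAData v E Z fun z hz =>
      ⟨fun h0 => DNS_ne A hBAS P _ (h0 ▸ hZ z hz), hX v z (hZ z hz)⟩
    refine ⟨h1, h2.trans ?_⟩
    rw [hZc]
    have : (i : ℝ) ≤ K := by exact_mod_cast hi
    exact mul_le_mul_of_nonneg_right this hEpos.le
  set W : A.Pl → ℕ → Multiset ℂ := fun v i =>
    (Y v i).map fun a => x (A.frob v) ^ (K - i) * a with hW
  have hWlg : ∀ v i, i ≤ K → ∀ a ∈ W v i, a ≠ 0 ∧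
      |DNS_lg A.toAData v a - ((K - i : ℕ) : ℝ) * S| ≤ K * E := by
    intro v i hi a ha
    obtain ⟨b, hb, rfl⟩ := Multiset.mem_map.1 ha
    obtain ⟨h1, h2⟩ := hYlg v i hi b hb
    obtain ⟨h3, h4⟩ := DNS_lg_abs A v S (K - i)
    have h3' : x (A.frob v) ^ (K - i) ≠ 0 := pow_ne_zero _ (hx0 _)
    refine ⟨mul_ne_zero h3' h1, ?_⟩
    rw [DNS_lg_mul _ _ h3' h1]
    have h5 : DNS_lg A.toAData v (x (A.frob v) ^ (K - i)) = ((K - i : ℕ) : ℝ) * S := h4
    rw [h5, add_sub_cancel_left]
    exact h2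
  have hUe : ∀ j v, A.eigs (U j) (A.frob v) =
      ∑ i ∈ Finset.range (K + 1), Nat.multichoose j (K - i) • W v i := by
    intro j v
    refine DNS_powsum hVAN _ _ (DNS_ne A hBAS _ _) ?_ ?_
    · intro h0
      rw [Multiset.mem_sum] at h0
      obtain ⟨i, hi, h0⟩ := h0
      have h1 := Multiset.mem_of_mem_nsmul h0
      exact (hWlg v i (by have := Finset.mem_range.1 hi; omega) 0 h1).1 rfl
    · intro n hn
      have h1 := hUs j ((A.frob v).pow (n : ℤ))
      rw [DNS_pow A hBAS, DNS_pow A hBAS] at h1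
      simp only [zpow_natCast] at h1
      rw [h1, DNS_map_sum, Multiset.sum_sum]
      refine Finset.sum_congr rfl fun i _ => ?_
      have h2 : x ((A.frob v).pow (n : ℤ)) = x (A.frob v) ^ n := by
        simp only [hx, AData.Pt.pow, zpow_natCast, map_pow]
        rw [← Complex.ofReal_pow]
        congr 1
        rw [← Real.rpow_natCast, ← Real.rpow_natCast, ← Real.rpow_mul (A.ab_pos _ _).le,
          ← Real.rpow_mul (A.ab_pos _ _).le, mul_comm]
      have h3 := hYs v i n
      simp only [zpow_natCast] at h3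
      rw [h2, Multiset.map_nsmul, Multiset.sum_nsmul, hW, Multiset.map_map, ← h3, nsmul_eq_mul]
      congr 1
      rw [← Multiset.sum_map_mul_left]
      congr 1
      refine Multiset.map_congr rfl fun a _ => ?_
      simp only [Function.comp_apply, mul_pow]
      ring
  -- the exponents of the constituents
  set r : ℕ → A.Cusp → Prop := fun i w => |A.expo w - ((K - i : ℕ) : ℝ) * S| < K * E + 1 / 2
    with hr
  set s : A.Pl → ℕ → ℂ → Prop := fun v i a =>
    |DNS_lg A.toAData v a - ((K - i : ℕ) : ℝ) * S| < B with hs'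
  have hsep : ∀ (t : ℝ) (i i' : ℕ), i ≤ K → i' ≤ K → |t - ((K - i : ℕ) : ℝ) * S| < B →
      |t - ((K - i' : ℕ) : ℝ) * S| < B → i = i' := by
    intro t i i' hi hi' h1 h2
    have h3 : |(((K - i : ℕ) : ℝ) - ((K - i' : ℕ) : ℝ)) * S| < 2 * B := by
      rw [abs_lt] at h1 h2 ⊢
      constructor <;> nlinarith [h1.1, h1.2, h2.1, h2.2]
    rw [abs_mul, abs_of_pos (by positivity : 0 < S)] at h3
    by_contra hne
    have h4 : (1 : ℝ) ≤ |((K - i : ℕ) : ℝ) - ((K - i' : ℕ) : ℝ)| := by
      have h5 : (1 : ℤ) ≤ |((K - i : ℕ) : ℤ) - ((K - i' : ℕ) : ℤ)| := by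
        apply Int.one_le_abs
        omega
      exact_mod_cast h5
    nlinarith
  have hexp : ∀ j, ∀ w ∈ U j, ∃ i ∈ Finset.range (K + 1), r i w := by
    intro j w hw
    have hpos : 0 < (A.eig w (A.frob A.inf)).card := by
      rw [hcard]
      exact A.deg_pos w
    obtain ⟨a, ha⟩ := Multiset.card_pos_iff_exists_mem.1 hpos
    have hb := DNS_lg_bound A hBAS w A.inf ha
    have ha' : a ∈ A.eigs (U j) (A.frob A.inf) := (mem_eigs A.toAData).2 ⟨w, hw, ha⟩
    rw [hUe, Multiset.mem_sum] at ha'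
    obtain ⟨i, hi, ha'⟩ := ha'
    have h1 := (hWlg A.inf i (by have := Finset.mem_range.1 hi; omega) a
      (Multiset.mem_of_mem_nsmul ha')).2
    refine ⟨i, hi, ?_⟩
    simp only [hr]
    rw [abs_le] at h1
    rw [abs_lt]
    constructor <;> linarith [h1.1, h1.2, hb.1, hb.2]
  have hrB : ∀ i w, r i w → |A.expo w - ((K - i : ℕ) : ℝ) * S| < B := by
    intro i w h
    simp only [hr] at h
    linarith
  have hrs : ∀ j v i, i ≤ K → ∀ w ∈ U j, ∀ a ∈ A.eig w (A.frob v), (s v i a ↔ r i w) := by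
    intro j v i hi w hw a ha
    have hb := DNS_lg_bound A hBAS w v ha
    obtain ⟨i', hi', h'⟩ := hexp j w hw
    have hi'K : i' ≤ K := by have := Finset.mem_range.1 hi'; omega
    have h1 : s v i' a := by
      simp only [hs']
      simp only [hr] at h'
      rw [abs_lt] at h' ⊢
      constructor <;> linarith [h'.1, h'.2, hb.1, hb.2]
    constructor
    · intro h
      have : i = i' := hsep _ i i' hi hi'K h h1
      rw [this]
      exact h'
    · intro h
      have : i = i' := hsep _ i i' hi hi'K (hrB i w h) (hrB i' w h')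
      rw [this]
      exact h1
  -- the parts
  have hpart : ∀ j v i, i ≤ K → A.eigs ((U j).filter (r i)) (A.frob v) =
      Nat.multichoose j (K - i) • W v i := by
    intro j v i hi
    rw [← DNS_filter_eigs A (U j) (A.frob v) (r i) (s v i) (hrs j v i hi), hUe]
    refine DNS_filter_sum _ (s v i) (fun i => Nat.multichoose j (K - i) • W v i) i
      (Finset.mem_range.2 (by omega)) ?_ ?_
    · intro a ha
      have h1 := (hWlg v i hi a (Multiset.mem_of_mem_nsmul ha)).2
      simp only [hs']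
      linarith
    · intro i' hi' hne a ha h
      have hi'K : i' ≤ K := by have := Finset.mem_range.1 hi'; omega
      have h1 := (hWlg v i' hi'K a (Multiset.mem_of_mem_nsmul ha)).2
      refine hne (hsep _ i' i hi'K hi ?_ h)
      linarith
  have hUj : ∀ j i, i ≤ K → (U j).filter (r i) =
      Nat.multichoose j (K - i) • (U 1).filter (r i) := by
    intro j i hi
    apply hI
    intro v n _
    rw [DNS_pow A hBAS, DNS_pow A hBAS, hpart j v i hi, DNS_eigs_nsmul, hpart 1 v i hi,
      Nat.multichoose_one, one_nsmul]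
  have hUtot : ∀ j p, (A.eigs (U j) p).sum = ∑ i ∈ Finset.range (K + 1),
      (Nat.multichoose j (K - i) : ℂ) * (A.eigs ((U 1).filter (r i)) p).sum := by
    intro j p
    have h1 := DNS_part (Finset.range (K + 1)) r (U j) (hexp j) (by
      intro w _ i hi i' hi' h h'
      have hiK : i ≤ K := by have := Finset.mem_range.1 hi; omega
      have hi'K : i' ≤ K := by have := Finset.mem_range.1 hi'; omega
      exact hsep _ i i' hiK hi'K (hrB i w h) (hrB i' w h'))
    conv_lhs => rw [h1]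
    rw [DNS_eigs_sum, Multiset.sum_sum]
    refine Finset.sum_congr rfl fun i hi => ?_
    have hiK : i ≤ K := by have := Finset.mem_range.1 hi; omega
    rw [hUj j i hiK, DNS_eigs_nsmul, Multiset.sum_nsmul, nsmul_eq_mul]
  obtain ⟨V, hV⟩ : ∃ V : ℕ → Multiset A.Cusp, ∀ i, V i = (U 1).filter (r i) :=
    ⟨_, fun _ => rfl⟩
  simp only [← hV] at hUtot
  refine ⟨DNS_tw A (-S) (V k), fun p => ?_⟩
  rw [DNS_sum_tw A hBAS]
  have hlin := DNS_lin K 0 (fun n => (A.eigs (V (K - n)) p).sum -
    x p ^ n * hs (K - n) (A.eigs P p)) (by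
      intro j _
      have h1 := hUtot j p
      rw [hUs j p, ← sub_eq_zero, ← Finset.sum_sub_distrib, ← Finset.sum_range_reflect] at h1
      rw [← neg_eq_zero, ← h1, ← Finset.sum_neg_distrib]
      refine Finset.sum_congr rfl fun n hn => ?_
      have hn' : n ≤ K := by have := Finset.mem_range.1 hn; omega
      have e1 : K - (K + 1 - 1 - n) = n := by omega
      have e2 : K + 1 - 1 - n = K - n := by omega
      rw [e1, e2]
      ring) 1 (by omega)
  have h2 : K - 1 = k := by omega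
  simp only [h2, pow_one] at hlin
  rw [sub_eq_zero.1 hlin]
  have h3 : ((A.ab p.v p.g ^ (-S) : ℝ) : ℂ) * x p = 1 := by
    simp only [hx]
    rw [← Complex.ofReal_mul, ← Real.rpow_add (A.ab_pos _ _), neg_add_cancel, Real.rpow_zero,
      Complex.ofReal_one]
  rw [← mul_assoc, h3, one_mul]

end Pool.H66.S2
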